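import Mathlib

/-! A weakly Lee 2-coherent ring that is not Lee 2-coherent. -/

set_option autoImplicit false

namespace Pool.Agent.Results.MP_0b9bd1_al.Counter

open CategoryTheory

/-- Every finitely generated submodule of some `R^m` of projective dimension at most `n - 1` is
finitely presented. -/
def LeeCoherent (n : ℕ) (R : Type) [Ring R] : Prop :=
  ∀ (m : ℕ), 1 ≤ m → ∀ K : Submodule R (Fin m → R), K.FG →
    HasProjectiveDimensionLE (ModuleCat.of R K) (n - 1) → Module.FinitePresentation R K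

/-- Every finitely generated left ideal of projective dimension at most `n - 1` is finitely
presented. -/
def WeaklyLeeCoherent (n : ℕ) (R : Type) [Ring R] : Prop :=
  ∀ I : Submodule R R, I.FG →
    HasProjectiveDimensionLE (ModuleCat.of R I) (n - 1) → Module.FinitePresentation R I

lemma pd_iff {R M N : Type} [Ring R] [AddCommGroup M] [Module R M] [AddCommGroup N] [Module R N]
    [Module.Projective R M] (f : M →ₗ[R] N) (hf : Function.Surjective f) :
    HasProjectiveDimensionLE (ModuleCat.of R N) 1 ↔ Module.Projective R (LinearMap.ker f) := by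
  have := (LinearMap.shortExact_shortComplexKer hf).hasProjectiveDimensionLT_X₃_iff 0
    (inferInstanceAs (Projective (ModuleCat.of R M)))
  rw [IsProjective.iff_projective, projective_iff_hasProjectiveDimensionLT_one]
  exact this

abbrev F := ZMod 2

@[ext] structure A where
  c1 : F
  c2 : F
  c3 : F
  c4 : F
  z : F
  x1 : F
  x2 : F
  a1 : F
  a2 : F
  b : F
  y : ℕ →₀ F

noncomputable instance : Add A := ⟨fun r s => ⟨r.c1 + s.c1, r.c2 + s.c2, r.c3 + s.c3, r.c4 + s.c4,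
  r.z + s.z, r.x1 + s.x1, r.x2 + s.x2, r.a1 + s.a1, r.a2 + s.a2, r.b + s.b, r.y + s.y⟩⟩
noncomputable instance : Neg A := ⟨fun r => ⟨-r.c1, -r.c2, -r.c3, -r.c4, -r.z, -r.x1, -r.x2, -r.a1,
  -r.a2, -r.b, -r.y⟩⟩
instance : Zero A := ⟨⟨0, 0, 0, 0, 0, 0, 0, 0, 0, 0, 0⟩⟩
instance : One A := ⟨⟨1, 1, 1, 1, 0, 0, 0, 0, 0, 0, 0⟩⟩
noncomputable instance : Mul A := ⟨fun r s => ⟨r.c1 * s.c1, r.c2 * s.c2, r.c3 * s.c3, r.c4 * s.c4,
  r.c1 * s.z + r.z * s.c2, r.c2 * s.x1 + r.x1 * s.c3, r.c2 * s.x2 + r.x2 * s.c3,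
  r.c3 * s.a1 + r.a1 * s.c4, r.c3 * s.a2 + r.a2 * s.c4,
  r.c2 * s.b + r.b * s.c4 + (r.x1 * s.a1 + r.x2 * s.a2), r.c1 • s.y + s.c3 • r.y⟩⟩

lemma add_def (r s : A) : r + s = ⟨r.c1 + s.c1, r.c2 + s.c2, r.c3 + s.c3, r.c4 + s.c4,
  r.z + s.z, r.x1 + s.x1, r.x2 + s.x2, r.a1 + s.a1, r.a2 + s.a2, r.b + s.b, r.y + s.y⟩ := rfl
lemma neg_def (r : A) : -r = ⟨-r.c1, -r.c2, -r.c3, -r.c4, -r.z, -r.x1, -r.x2, -r.a1,
  -r.a2, -r.b, -r.y⟩ := rfl
lemma zero_def : (0 : A) = ⟨0, 0, 0, 0, 0, 0, 0, 0, 0, 0, 0⟩ := rfl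
lemma one_def : (1 : A) = ⟨1, 1, 1, 1, 0, 0, 0, 0, 0, 0, 0⟩ := rfl
lemma mul_def (r s : A) : r * s = ⟨r.c1 * s.c1, r.c2 * s.c2, r.c3 * s.c3, r.c4 * s.c4,
  r.c1 * s.z + r.z * s.c2, r.c2 * s.x1 + r.x1 * s.c3, r.c2 * s.x2 + r.x2 * s.c3,
  r.c3 * s.a1 + r.a1 * s.c4, r.c3 * s.a2 + r.a2 * s.c4,
  r.c2 * s.b + r.b * s.c4 + (r.x1 * s.a1 + r.x2 * s.a2), r.c1 • s.y + s.c3 • r.y⟩ := rfl

noncomputable instance : Ring A := Ring.ofMinimalAxioms
  (fun r s t => by ext <;> simp only [add_def, Finsupp.add_apply] <;> ring)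
  (fun r => by ext <;> simp [add_def, zero_def])
  (fun r => by ext <;> simp only [add_def, zero_def, neg_def, neg_add_cancel])
  (fun r s t => by
    ext <;> simp only [mul_def, Finsupp.add_apply, Finsupp.smul_apply, smul_eq_mul] <;> ring)
  (fun r => by ext <;> simp [mul_def, one_def])
  (fun r => by ext <;> simp [mul_def, one_def])
  (fun r s t => by
    ext <;> simp only [mul_def, add_def, Finsupp.add_apply, Finsupp.smul_apply, smul_eq_mul] <;> ring)
  (fun r s t => by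
    ext <;> simp only [mul_def, add_def, Finsupp.add_apply, Finsupp.smul_apply, smul_eq_mul] <;> ring)

def C3 : A →+ F := ⟨⟨A.c3, rfl⟩, fun _ _ => rfl⟩
def X1 : A →+ F := ⟨⟨A.x1, rfl⟩, fun _ _ => rfl⟩
def X2 : A →+ F := ⟨⟨A.x2, rfl⟩, fun _ _ => rfl⟩
def sc (c : F) : A := ⟨c, c, c, c, 0, 0, 0, 0, 0, 0, 0⟩
def Z : A := ⟨0, 0, 0, 0, 1, 0, 0, 0, 0, 0, 0⟩
noncomputable def Xx : F × F →+ A where
  toFun p := ⟨0, 0, 0, 0, 0, p.1, p.2, 0, 0, 0, 0⟩
  map_zero' := rfl
  map_add' p q := by ext <;> simp [add_def]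
noncomputable def Bb : F →+ A where
  toFun p := ⟨0, 0, 0, 0, 0, 0, 0, 0, 0, p, 0⟩
  map_zero' := rfl
  map_add' p q := by ext <;> simp [add_def]
noncomputable def Yy : (ℕ →₀ F) →+ A where
  toFun p := ⟨0, 0, 0, 0, 0, 0, 0, 0, 0, 0, p⟩
  map_zero' := rfl
  map_add' p q := by ext <;> simp [add_def]

lemma Xx_mul (p : F × F) (s : A) : Xx p * s = Xx (s.c3 • p) + Bb (p.1 * s.a1 + p.2 * s.a2) := by
  ext <;> simp [Xx, Bb, mul_def, add_def, mul_comm]
lemma Yy_mul (p : ℕ →₀ F) (s : A) : Yy p * s = Yy (s.c3 • p) := by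
  ext <;> simp [Yy, mul_def]
lemma Yy_inj : Function.Injective Yy := fun _ _ h => congrArg A.y h

lemma flat_step {n : ℕ} (Ω : Submodule A (Fin n → A)) [Module.Projective A Ω] (w : Ω)
    (hw : Z • w = 0) : (∃ v ∈ Ω, ∀ i, (v i).c3 = (w.1 i).x1) ∧ ∃ v ∈ Ω, ∀ i, (v i).c3 = (w.1 i).x2 := by
  obtain ⟨s, hs⟩ := Module.projective_def.1 (inferInstance : Module.Projective A Ω)
  have h2 : ∀ q, (s w q).c2 = 0 := fun q => by
    have : Z * s w q = 0 := by
      rw [← smul_eq_mul, ← Finsupp.smul_apply, ← map_smul, hw, map_zero]; rfl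
    simpa [mul_def, Z, zero_def] using congrArg A.z this
  have h3 : ∀ i, w.1 i = ∑ q ∈ (s w).support, s w q * q.1 i := fun i => by
    conv_lhs => rw [← hs w, Finsupp.linearCombination_apply, Finsupp.sum]
    simp [Finset.sum_apply]
  constructor
  · refine ⟨∑ q ∈ (s w).support, sc (s w q).x1 • q.1, Submodule.sum_mem _ fun q _ =>
      Ω.smul_mem _ q.2, fun i => ?_⟩
    rw [h3, Finset.sum_apply]
    change C3 _ = X1 _
    rw [map_sum, map_sum]
    exact Finset.sum_congr rfl fun q _ => by simp [C3, X1, mul_def, sc, h2]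
  · refine ⟨∑ q ∈ (s w).support, sc (s w q).x2 • q.1, Submodule.sum_mem _ fun q _ =>
      Ω.smul_mem _ q.2, fun i => ?_⟩
    rw [h3, Finset.sum_apply]
    change C3 _ = X2 _
    rw [map_sum, map_sum]
    exact Finset.sum_congr rfl fun q _ => by simp [C3, X2, mul_def, sc, h2]

lemma perp : ∀ a b : F, ∃ p : F × F, p.1 * a + p.2 * b = 0 ∧ (p.1 = 1 ∨ p.2 = 1) := by decide

lemma lam_step {n : ℕ} (g : Fin n → A) (Ω : Submodule A (Fin n → A))
    (hΩ : ∀ v, v ∈ Ω ↔ ∑ i, v i * g i = 0) [Module.Projective A Ω] (l : Fin n → F)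
    (hl : ∑ i, l i * (g i).c3 = 0) : ∃ v ∈ Ω, ∀ i, (v i).c3 = l i := by
  obtain ⟨p, hp, hp'⟩ := perp (∑ i, l i * (g i).a1) (∑ i, l i * (g i).a2)
  have hw : (fun i => Xx (l i • p)) ∈ Ω := by
    rw [hΩ]
    simp only [Xx_mul, Finset.sum_add_distrib, ← map_sum, smul_smul, ← Finset.sum_smul]
    have e1 : ∑ i, (g i).c3 * l i = 0 := by simpa [mul_comm] using hl
    have e2 : ∑ i, (l i • p).1 * (g i).a1 + ∑ i, (l i • p).2 * (g i).a2 = 0 := by
      rw [← hp, Finset.mul_sum, Finset.mul_sum]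
      congr 1 <;> exact Finset.sum_congr rfl fun i _ => by simp; ring
    rw [e1, e2]; simp
  obtain ⟨h1, h2⟩ := flat_step Ω ⟨_, hw⟩ (by ext i <;> simp [Z, Xx, mul_def, zero_def])
  rcases hp' with h | h
  · simpa [Xx, h] using h1
  · simpa [Xx, h] using h2

def fin (r : A) : Fin 10 → F := ![r.c1, r.c2, r.c3, r.c4, r.z, r.x1, r.x2, r.a1, r.a2, r.b]

lemma fin_eq {r s : A} (h : fin r = fin s) : r = s + Yy (r.y - s.y) := by
  have := fun i => congrFun h i
  have h0 := this 0; have h1 := this 1; have h2 := this 2; have h3 := this 3; have h4 := this 4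
  have h5 := this 5; have h6 := this 6; have h7 := this 7; have h8 := this 8; have h9 := this 9
  simp [fin] at h0 h1 h2 h3 h4 h5 h6 h7 h8 h9
  ext <;> simp [add_def, Yy, *]

lemma fg_step {n : ℕ} (g : Fin n → A) (Ω : Submodule A (Fin n → A))
    (hΩ : ∀ v, v ∈ Ω ↔ ∑ i, v i * g i = 0) [Module.Projective A Ω] : Ω.FG := by
  classical
  let φ : Ω → Fin n → Fin 10 → F := fun v i => fin (v.1 i)
  have : ∀ t : Set.range φ, ∃ v, φ v = t := fun t => t.2
  choose rep hrep using this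
  refine Submodule.fg_def.2 ⟨Set.range fun t => (rep t).1, Set.finite_range _, le_antisymm ?_ ?_⟩
  · rw [Submodule.span_le]; rintro _ ⟨t, rfl⟩; exact (rep t).2
  have hY : ∀ y : Fin n → ℕ →₀ F, (fun i => Yy (y i)) ∈ Ω →
      (fun i => Yy (y i)) ∈ Submodule.span A (Set.range fun t => (rep t).1) := by
    intro y hy
    rw [hΩ] at hy
    simp only [Yy_mul, ← map_sum] at hy
    have hy' := Yy_inj (hy.trans (map_zero _).symm)
    have h1 : ∀ m : ℕ, ∃ v ∈ Submodule.span A (Set.range fun t => (rep t).1),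
        ∀ i, (v i).c3 = y i m := fun m => by
      obtain ⟨v, hv, h⟩ := lam_step g Ω hΩ (fun i => y i m) (by
        simpa [Finsupp.finsetSum_apply, mul_comm] using DFunLike.congr_fun hy' m)
      refine ⟨(rep ⟨_, ⟨v, hv⟩, rfl⟩).1, Submodule.subset_span ⟨_, rfl⟩, fun i => ?_⟩
      rw [← h i]
      simpa [φ, fin] using congrFun (congrFun (hrep ⟨_, ⟨v, hv⟩, rfl⟩) i) 2
    choose v hv hv' using h1
    have : (fun i => Yy (y i)) = ∑ m ∈ Finset.univ.biUnion fun i => (y i).support,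
        Yy (Finsupp.single m 1) • v m := by
      funext i
      simp only [Finset.sum_apply, Pi.smul_apply, smul_eq_mul, Yy_mul, ← map_sum, hv']
      congr 1
      ext m
      simp only [Finsupp.finsetSum_apply, Finsupp.smul_apply, Finsupp.single_apply, smul_eq_mul,
        mul_ite, mul_one, mul_zero, Finset.sum_ite_eq']
      split_ifs with h
      · rfl
      · by_contra h'
        exact h (Finset.mem_biUnion.2 ⟨i, Finset.mem_univ _, Finsupp.mem_support_iff.2 h'⟩)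
    rw [this]
    exact Submodule.sum_mem _ fun m _ => Submodule.smul_mem _ _ (hv m)
  intro w hw
  have h1 := hrep ⟨_, ⟨w, hw⟩, rfl⟩
  set u := rep ⟨_, ⟨w, hw⟩, rfl⟩
  have h2 : w = u.1 + fun i => Yy ((w i).y - (u.1 i).y) :=
    funext fun i => fin_eq (congrFun h1 i).symm
  rw [h2]
  refine add_mem (Submodule.subset_span ⟨_, rfl⟩) (hY _ ?_)
  rw [← sub_eq_iff_eq_add'] at h2
  rw [← h2]
  exact sub_mem hw u.2

lemma weak : WeaklyLeeCoherent 2 A := by
  intro I hI hpd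
  have : Module.Finite A I := Module.Finite.iff_fg.2 hI
  obtain ⟨n, f, hf⟩ := Module.Finite.exists_fin' A I
  have := (pd_iff f hf).1 hpd
  refine Module.finitePresentation_of_surjective f hf
    (fg_step (fun i => (f (Pi.single i 1)).1) _ fun v => ?_)
  rw [LinearMap.mem_ker, ← Subtype.coe_inj]
  have : v = ∑ i, v i • (Pi.single i 1 : Fin n → A) := by
    ext1 j; simp [Finset.sum_apply, Pi.single_apply]
  conv_lhs => rw [this]
  simp [map_sum]

def aa : Fin 2 → A := ![⟨0, 0, 0, 0, 0, 0, 0, 1, 0, 0, 0⟩, ⟨0, 0, 0, 0, 0, 0, 0, 0, 1, 0, 0⟩]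

noncomputable abbrev ff : A →ₗ[A] (Fin 2 → A) := LinearMap.toSpanSingleton A _ aa

lemma mem_ker (r : A) : r ∈ LinearMap.ker ff.rangeRestrict ↔ r.c3 = 0 ∧ r.x1 = 0 ∧ r.x2 = 0 := by
  rw [LinearMap.ker_rangeRestrict, LinearMap.mem_ker]
  simp [funext_iff, Fin.forall_fin_two, aa, mul_def, zero_def]
  tauto

def e1 (c : F) : A := ⟨c, 0, 0, 0, 0, 0, 0, 0, 0, 0, 0⟩
lemma e1_zero : e1 0 = 0 := rfl
def e3' : A := ⟨1, 1, 0, 1, 0, 0, 0, 0, 0, 0, 0⟩

noncomputable def sJ : LinearMap.ker ff.rangeRestrict →ₗ[A] A × (ℕ →₀ A) where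
  toFun j := (j.1 * e3', j.1.y.mapRange e1 e1_zero)
  map_add' i j := by
    refine Prod.ext (add_mul _ _ _) (Finsupp.ext fun m => ?_)
    simp only [Prod.snd_add, Finsupp.add_apply, Finsupp.mapRange_apply]
    simp [add_def, e1]
  map_smul' r j := by
    refine Prod.ext (mul_assoc _ _ _) (Finsupp.ext fun m => ?_)
    simp only [Prod.smul_snd, Finsupp.smul_apply, Finsupp.mapRange_apply]
    simp [mul_def, e1, ((mem_ker _).1 j.2).1]

noncomputable def pJ : A × (ℕ →₀ A) →ₗ[A] LinearMap.ker ff.rangeRestrict :=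
  (LinearMap.toSpanSingleton A _ ⟨e3', (mem_ker _).2 ⟨rfl, rfl, rfl⟩⟩).coprod
    (Finsupp.linearCombination A fun m => ⟨Yy (Finsupp.single m 1), (mem_ker _).2 ⟨rfl, rfl, rfl⟩⟩)

lemma projJ : Module.Projective A (LinearMap.ker ff.rangeRestrict) := by
  refine Module.Projective.of_split sJ pJ (LinearMap.ext fun j => Subtype.ext ?_)
  obtain ⟨h1, h2, h3⟩ := (mem_ker _).1 j.2
  have : ∀ y : ℕ →₀ F, (y.sum fun m c => e1 c * Yy (Finsupp.single m 1)) = Yy y := fun y => by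
    conv_rhs => rw [← Finsupp.sum_single y, map_finsuppSum]
    exact Finsupp.sum_congr fun m _ => by ext <;> simp [e1, Yy, mul_def]
  simp only [sJ, pJ, LinearMap.comp_apply, LinearMap.coe_mk, AddHom.coe_mk, LinearMap.coprod_apply,
    LinearMap.toSpanSingleton_apply, Finsupp.linearCombination_apply, LinearMap.id_apply]
  rw [Finsupp.sum_mapRange_index (by simp)]
  simp only [Finsupp.sum, Submodule.coe_add, Submodule.coe_sum, Submodule.coe_smul, smul_eq_mul]
  rw [show ∑ m ∈ j.1.y.support, e1 (j.1.y m) * Yy (Finsupp.single m 1) = _ from this j.1.y]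
  ext <;> simp [e3', mul_def, add_def, Yy, h1, h2, h3]

lemma not_fg : ¬ (LinearMap.ker ff.rangeRestrict).FG := by
  rintro ⟨s, hs⟩
  let N := s.sup fun r => r.y.support.sup id
  let V : Submodule A A :=
    { carrier := {r | r.c3 = 0 ∧ r.y (N + 1) = 0}
      add_mem' := fun ha hb => by simp_all [add_def]
      zero_mem' := ⟨rfl, rfl⟩
      smul_mem' := fun c x hx => by simp_all [mul_def] }
  have : LinearMap.ker ff.rangeRestrict ≤ V := by
    rw [← hs, Submodule.span_le]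
    intro r hr
    refine ⟨((mem_ker _).1 (hs ▸ Submodule.subset_span hr)).1, ?_⟩
    by_contra h
    have h1 : N + 1 ≤ r.y.support.sup id := Finset.le_sup (f := id) (Finsupp.mem_support_iff.2 h)
    have h2 : r.y.support.sup id ≤ N := Finset.le_sup (f := fun r : A => r.y.support.sup id) hr
    omega
  have h := (this ((mem_ker (Yy (Finsupp.single (N + 1) 1))).2 ⟨rfl, rfl, rfl⟩)).2
  simp [Yy] at h

theorem result : ∃ (n : ℕ) (R : Type) (_ : Ring R), 2 ≤ n ∧ WeaklyLeeCoherent n R ∧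
    ¬ LeeCoherent n R := by
  refine ⟨2, A, inferInstance, le_rfl, weak, fun h => not_fg ?_⟩
  have := h 2 (by norm_num) (LinearMap.range ff)
    (by rw [LinearMap.range_eq_map]; exact Module.Finite.fg_top.map _)
    ((pd_iff _ ff.surjective_rangeRestrict).2 projJ)
  exact Module.FinitePresentation.fg_ker _ ff.surjective_rangeRestrict

end Pool.Agent.Results.MP_0b9bd1_al.Counter
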